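import Pool.Agent.W732.Ud.Stm3

/-!
# Thin sets
-/

set_option autoImplicit false

open Metric Set Filter Topology Complex

namespace Pool.Agent.W12.Ud.Thin4

open Pool.Agent.W732.Ud
open Pool.Agent.W732.Cor (V mv tau)

/-- unit vectors are conjugate under linear isometries (`Helper287.MB.TypeV`) -/
theorem exists_iso {m : ℕ} {e v : V m} (he : ‖e‖ = 1) (hv : ‖v‖ = 1) :
    ∃ L : V m ≃ₗᵢ[ℂ] V m, L e = v := by
  let L0 : (ℂ ∙ e) →ₗᵢ[ℂ] V m := (LinearIsometry.toSpanSingleton ℂ (V m) hv).comp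
    (LinearIsometryEquiv.toSpanUnitSingleton e he).symm.toLinearIsometry
  have hL0 : L0 ⟨e, Submodule.mem_span_singleton_self e⟩ = v := by
    have : (LinearIsometryEquiv.toSpanUnitSingleton (𝕜 := ℂ) e he).symm
        ⟨e, Submodule.mem_span_singleton_self e⟩ = 1 := by
      rw [LinearIsometryEquiv.symm_apply_eq]
      apply Subtype.ext
      simp
    show LinearIsometry.toSpanSingleton ℂ (V m) hv ((LinearIsometryEquiv.toSpanUnitSingleton e he).symm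
        ⟨e, Submodule.mem_span_singleton_self e⟩) = v
    rw [this]
    simp
  let L1 : V m →ₗᵢ[ℂ] V m := L0.extend
  refine ⟨L1.toLinearIsometryEquiv rfl, ?_⟩
  have h1 : L1 ((⟨e, Submodule.mem_span_singleton_self e⟩ : (ℂ ∙ e) ) : V m) =
      L0 ⟨e, Submodule.mem_span_singleton_self e⟩ :=
    LinearIsometry.extend_apply L0 _
  rw [hL0] at h1
  exact h1

/-- Pythagoras -/
theorem pyth {m : ℕ} {p : V m} (hp : ‖p‖ = 1) (z : V m) :
    ‖z‖ ^ 2 = ‖(inner ℂ p z : ℂ)‖ ^ 2 + ‖z - (inner ℂ p z : ℂ) • p‖ ^ 2 := by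
  have h0 : (inner ℂ ((inner ℂ p z : ℂ) • p) (z - (inner ℂ p z : ℂ) • p) : ℂ) = 0 := by
    rw [inner_smul_left, inner_sub_right, inner_smul_right, inner_self_eq_norm_sq_to_K, hp]
    simp
  have h1 := norm_add_sq_eq_norm_sq_add_norm_sq_of_inner_eq_zero (𝕜 := ℂ) _ _ h0
  rw [add_sub_cancel, norm_smul, hp, mul_one] at h1
  rw [sq, sq, sq]
  exact h1

theorem inner_lt {m : ℕ} {p : V m} (hp : ‖p‖ = 1) {z : V m} (hz : ‖z‖ < 1) :
    0 ≤ 1 - ‖(inner ℂ p z : ℂ)‖ ^ 2 := by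
  have h1 := pyth hp z
  have h2 := sq_nonneg ‖z - (inner ℂ p z : ℂ) • p‖
  have h3 : ‖z‖ ^ 2 ≤ 1 := by nlinarith [norm_nonneg z]
  linarith

theorem TT_mono {m : ℕ} {p : V m} (hp : ‖p‖ = 1) {ρ ρ' : ℝ} (h0 : 0 ≤ ρ) (h : ρ ≤ ρ') :
    TT p ρ ⊆ TT p ρ' := by
  rintro z ⟨h1, h2⟩
  refine ⟨h1, h2.trans ?_⟩
  apply mul_le_mul_of_nonneg_right (pow_le_pow_left₀ h0 h 2)
  exact inner_lt hp (mem_ball_zero_iff.1 h1)

/-- a small ball is contained in the neighbourhood of one slice -/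
theorem small_TT {m : ℕ} {p : V m} (hp : ‖p‖ = 1) {s : ℝ} (h0 : 0 ≤ s) (h1 : s < 1) {z : V m}
    (hz : ‖z‖ ≤ s) : z ∈ TT p s := by
  refine ⟨mem_ball_zero_iff.2 (hz.trans_lt h1), ?_⟩
  have h2 := pyth hp z
  have h3 : ‖z‖ ^ 2 ≤ s ^ 2 := pow_le_pow_left₀ (norm_nonneg z) hz 2
  have h4 := sq_nonneg ‖(inner ℂ p z : ℂ)‖
  have h5 : s ^ 2 * ‖(inner ℂ p z : ℂ)‖ ^ 2 ≤ 1 * ‖(inner ℂ p z : ℂ)‖ ^ 2 :=
    mul_le_mul_of_nonneg_right (by nlinarith) h4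
  nlinarith

theorem iso_TT {m : ℕ} {p q : V m} {ρ : ℝ} (L : V m ≃ₗᵢ[ℂ] V m) (hL : L p = q) {z : V m}
    (hz : z ∈ TT q ρ) : L.symm z ∈ TT p ρ := by
  obtain ⟨h1, h2⟩ := hz
  have e1 : (inner ℂ p (L.symm z) : ℂ) = inner ℂ q z := by
    rw [← hL, ← L.inner_map_map p (L.symm z), L.apply_symm_apply]
  refine ⟨?_, ?_⟩
  · rw [mem_ball_zero_iff, LinearIsometryEquiv.norm_map]
    exact mem_ball_zero_iff.1 h1
  · rw [e1]
    have e2 : ‖L.symm z - (inner ℂ q z : ℂ) • p‖ = ‖z - (inner ℂ q z : ℂ) • q‖ := by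
      rw [← L.norm_map, map_sub, map_smul, L.apply_symm_apply, hL]
    rw [e2]
    exact h2

theorem sup_lt {α : Type} (t : Finset α) (r : α → ℝ) (hr : ∀ x ∈ t, r x < 1) (s : ℝ)
    (hs0 : 0 ≤ s) (hs1 : s < 1) : ∃ ρ : ℝ, 0 ≤ ρ ∧ ρ < 1 ∧ s ≤ ρ ∧ ∀ x ∈ t, r x ≤ ρ := by
  classical
  induction t using Finset.induction_on with
  | empty => exact ⟨s, hs0, hs1, le_rfl, fun x hx => absurd hx (Finset.notMem_empty x)⟩
  | insert a t _ ih =>
    obtain ⟨ρ, h0, h1, h2, h3⟩ := ih (fun x hx => hr x (Finset.mem_insert_of_mem hx))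
    refine ⟨max ρ (r a), h0.trans (le_max_left _ _),
      max_lt h1 (hr a (Finset.mem_insert_self _ _)), h2.trans (le_max_left _ _), ?_⟩
    intro x hx
    rcases Finset.mem_insert.1 hx with rfl | hx
    · exact le_max_right _ _
    · exact (h3 x hx).trans (le_max_left _ _)

/-- the covering of a thin set by finitely many slices -/
theorem cover {m : ℕ} {p0 : V m} (hp0 : ‖p0‖ = 1) {X : Set (V m)} (hX : Thin X) :
    ∃ (t : Finset (V m)) (ρ : ℝ), 0 ≤ ρ ∧ ρ < 1 ∧ (∀ x ∈ t, ‖x‖ = 1) ∧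
      ∀ z ∈ X, z ∈ TT p0 ρ ∨ ∃ x ∈ t, z ∈ TT x ρ := by
  obtain ⟨hX1, hX2⟩ := hX
  have hX3 : ∀ p : V m, ∃ ρ : ℝ, ‖p‖ = 1 → 0 ≤ ρ ∧ ρ < 1 ∧ ∀ᶠ z in 𝓝 p, z ∈ X →
      ‖z - (inner ℂ p z : ℂ) • p‖ ^ 2 ≤ ρ ^ 2 * (1 - ‖(inner ℂ p z : ℂ)‖ ^ 2) := by
    intro p
    by_cases hp : ‖p‖ = 1
    · obtain ⟨ρ, h1, h2, h3⟩ := hX2 p hp
      exact ⟨ρ, fun _ => ⟨h1, h2, h3⟩⟩
    · exact ⟨0, fun h => absurd h hp⟩
  choose r hr using hX3
  let O : V m → Set (V m) := fun p => interior {z | z ∈ X →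
      ‖z - (inner ℂ p z : ℂ) • p‖ ^ 2 ≤ r p ^ 2 * (1 - ‖(inner ℂ p z : ℂ)‖ ^ 2)}
  have hO : ∀ p ∈ sphere (0 : V m) 1, O p ∈ 𝓝 p := by
    intro p hp
    exact interior_mem_nhds.2 (hr p (mem_sphere_zero_iff_norm.1 hp)).2.2
  obtain ⟨t, ht1, ht2⟩ := (isCompact_sphere (0 : V m) 1).elim_nhds_subcover O hO
  have hOo : IsOpen (⋃ x ∈ t, O x) := isOpen_biUnion fun x _ => isOpen_interior
  -- the small ball
  obtain ⟨s, hs0, hs1, hs⟩ : ∃ s : ℝ, 0 ≤ s ∧ s < 1 ∧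
      ∀ z ∈ closedBall (0 : V m) 1 \ (⋃ x ∈ t, O x), ‖z‖ ≤ s := by
    rcases (closedBall (0 : V m) 1 \ (⋃ x ∈ t, O x)).eq_empty_or_nonempty with h | h
    · exact ⟨0, le_rfl, one_pos, fun z hz => by rw [h] at hz; exact absurd hz (notMem_empty z)⟩
    · have hc : IsCompact (closedBall (0 : V m) 1 \ (⋃ x ∈ t, O x)) :=
        (isCompact_closedBall _ _).diff hOo
      obtain ⟨z0, hz0, hmax⟩ := hc.exists_isMaxOn h continuous_norm.continuousOn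
      refine ⟨‖z0‖, norm_nonneg _, ?_, fun z hz => hmax hz⟩
      have h1 : ‖z0‖ ≤ 1 := mem_closedBall_zero_iff.1 hz0.1
      rcases h1.lt_or_eq with h2 | h2
      · exact h2
      · exact absurd (ht2 (mem_sphere_zero_iff_norm.2 h2)) hz0.2
  obtain ⟨ρ, h0, h1, h2, h3⟩ := sup_lt t r
    (fun x hx => (hr x (mem_sphere_zero_iff_norm.1 (ht1 x hx))).2.1) s hs0 hs1
  refine ⟨t, ρ, h0, h1, fun x hx => mem_sphere_zero_iff_norm.1 (ht1 x hx), ?_⟩
  intro z hz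
  by_cases hzO : z ∈ ⋃ x ∈ t, O x
  · right
    obtain ⟨x, hx, hzx⟩ := mem_iUnion₂.1 hzO
    have hx1 : ‖x‖ = 1 := mem_sphere_zero_iff_norm.1 (ht1 x hx)
    have h4 := interior_subset hzx hz
    exact ⟨x, hx, TT_mono hx1 (hr x hx1).1 (h3 x hx) ⟨hX1 hz, h4⟩⟩
  · left
    have h4 := hs z ⟨ball_subset_closedBall (hX1 hz), hzO⟩
    exact TT_mono hp0 hs0 h2 (small_TT hp0 hs0 hs1 h4)

theorem case_zero {m : ℕ} (hm : m = 0) (N l : ℕ) (δ ε : ℝ) (X : Set (V m)) (hδ : 0 < δ)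
    (hε : 0 < ε) : ∃ C : ℝ, ∀ ψ : Fin l → V m → V m,
      ∀ f : Fin N → V m → ℂ, Datum N δ (ball 0 1) f →
      ∃ g : Fin N → V m → ℂ, (∀ i, DifferentiableOn ℂ (g i) (ball 0 1)) ∧
        (∀ i, ∀ z ∈ ball (0 : V m) 1, ‖g i z‖ ≤ C) ∧
        ∀ j, ∀ z ∈ X, ‖∑ i, f i (ψ j z) * g i (ψ j z) - 1‖ ≤ ε := by
  subst hm
  refine ⟨N / δ ^ 2, fun ψ f hf => ?_⟩
  have h0 : (0 : V 0) ∈ ball (0 : V 0) 1 := mem_ball_self one_pos
  have hlow := hf.low 0 h0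
  set S : ℝ := ∑ i, ‖f i 0‖ ^ 2 with hS
  have hCS : δ ^ 2 ≤ N * S := by
    have h1 : (∑ i, ‖f i 0‖) ^ 2 ≤ (Finset.univ : Finset (Fin N)).card * ∑ i, ‖f i 0‖ ^ 2 :=
      sq_sum_le_card_mul_sum_sq
    rw [Finset.card_univ, Fintype.card_fin] at h1
    exact (pow_le_pow_left₀ hδ.le hlow 2).trans h1
  have hS0 : 0 ≤ S := Finset.sum_nonneg fun i _ => sq_nonneg _
  have hSp : 0 < S := by
    rcases hS0.lt_or_eq with h | h
    · exact h
    · rw [← h, mul_zero] at hCS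
      have := pow_pos hδ 2
      linarith
  refine ⟨fun i _ => starRingEnd ℂ (f i 0) / (S : ℂ), fun i => differentiableOn_const _, ?_, ?_⟩
  · intro i z _
    rw [norm_div, Complex.norm_conj, Complex.norm_real, Real.norm_of_nonneg hS0]
    rw [div_le_div_iff₀ hSp (pow_pos hδ 2)]
    have h1 := hf.bd i 0 h0
    have h2 := norm_nonneg (f i 0)
    have h3 : ‖f i 0‖ * δ ^ 2 ≤ 1 * δ ^ 2 := mul_le_mul_of_nonneg_right h1 (by positivity)
    linarith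
  · intro j z _
    have hz : ψ j z = 0 := Subsingleton.elim _ _
    rw [hz]
    have h1 : ∑ i, f i 0 * (starRingEnd ℂ (f i 0) / (S : ℂ)) = 1 := by
      have h2 : ∀ i, f i 0 * (starRingEnd ℂ (f i 0) / (S : ℂ)) = ((‖f i 0‖ ^ 2 : ℝ) : ℂ) / S := by
        intro i
        rw [← mul_div_assoc, Complex.mul_conj, Complex.normSq_eq_norm_sq]
      simp only [h2]
      rw [← Finset.sum_div, ← Complex.ofReal_sum, ← hS, div_self]
      exact_mod_cast hSp.ne'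
    rw [h1, sub_self, norm_zero]
    exact hε.le

theorem main : S_thin3 → S_thin4 := by
  classical
  intro h3 m N l δ ε X hδ hε hX
  rcases Nat.eq_zero_or_pos m with hm | hm
  · obtain ⟨C, hC⟩ := case_zero hm N l δ ε X hδ hε
    exact ⟨C, fun ψ φ _ f hf => hC ψ f hf⟩
  · obtain ⟨p0, hp0⟩ : ∃ p0 : V m, ‖p0‖ = 1 := by
      refine ⟨EuclideanSpace.single ⟨0, hm⟩ 1, ?_⟩
      simp
    obtain ⟨t, ρ, hρ0, hρ1, ht, hcov⟩ := cover hp0 hX
    have hiso : ∀ o : Option {x // x ∈ t}, ∃ L : V m ≃ₗᵢ[ℂ] V m,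
        L p0 = (match o with | none => p0 | some x => x.1) := by
      intro o
      rcases o with _ | x
      · exact exists_iso hp0 hp0
      · exact exists_iso hp0 (ht x.1 x.2)
    choose L hL using hiso
    let e := Fintype.equivFin (Fin l × Option {x // x ∈ t})
    obtain ⟨C, hC⟩ := h3 m p0 hp0 N (Fintype.card (Fin l × Option {x // x ∈ t})) δ ρ ε hδ hρ0
      hρ1 hε
    refine ⟨C, fun ψ φ hψ f hf => ?_⟩
    have hball : ∀ (L : V m ≃ₗᵢ[ℂ] V m), MapsTo L (ball (0 : V m) 1) (ball 0 1) := by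
      intro L z hz
      rw [mem_ball_zero_iff] at hz ⊢
      rwa [L.norm_map]
    obtain ⟨g, g1, g2, g3⟩ := hC (fun k z => ψ (e.symm k).1 (L (e.symm k).2 z))
      (fun k z => (L (e.symm k).2).symm (φ (e.symm k).1 z)) (by
        intro k
        obtain ⟨a1, a2, a3, a4, a5, a6⟩ := hψ (e.symm k).1
        refine ⟨?_, ?_, ?_, ?_, ?_, ?_⟩
        · exact a1.comp (L (e.symm k).2).differentiable.differentiableOn (hball _)
        · exact (L (e.symm k).2).symm.differentiable.comp_differentiableOn a2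
        · exact a3.comp (hball _)
        · exact (hball (L (e.symm k).2).symm).comp a4
        · intro z hz
          show (L (e.symm k).2).symm (φ (e.symm k).1 (ψ (e.symm k).1 (L (e.symm k).2 z))) = z
          rw [a5 _ (hball _ hz), LinearIsometryEquiv.symm_apply_apply]
        · intro z hz
          show ψ (e.symm k).1 (L (e.symm k).2 ((L (e.symm k).2).symm (φ (e.symm k).1 z))) = z
          rw [LinearIsometryEquiv.apply_symm_apply, a6 z hz]) f hf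
    refine ⟨g, g1, g2, ?_⟩
    intro j z hz
    obtain ⟨o, ho⟩ : ∃ o : Option {x // x ∈ t}, (L o).symm z ∈ TT p0 ρ := by
      rcases hcov z hz with h | ⟨x, hx, h⟩
      · exact ⟨none, iso_TT (L none) (hL none) h⟩
      · exact ⟨some ⟨x, hx⟩, iso_TT (L (some ⟨x, hx⟩)) (hL (some ⟨x, hx⟩)) h⟩
    have h4 := g3 (e (j, o)) _ ho
    simp only [Equiv.symm_apply_apply, LinearIsometryEquiv.apply_symm_apply] at h4
    exact h4

end Pool.Agent.W12.Ud.Thin4
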