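import Pool.Agent.W732.Ud.Stm3
import Pool.Agent.W64.Ud.Main

/-!
# The universal datum, continuous up to the boundary except at one point
-/

set_option autoImplicit false

open Metric Set Filter Topology Complex

namespace Pool.Agent.W12.Ud.Udc

open Pool.Agent.W732.Ud Pool.Agent.W64.Ud
open Pool.Agent.W732.Cor (V mv tau)

theorem main : S_disc → S_sp → S_sepc → S_sum → S_sumc → S_udc := by
  intro hdisc hsp hsepc hsum hsumc m D pt U ψ G P hA hB hpD N δ hδ
  by_cases hex : ∃ h : Fin N → V m → ℂ, Datum N δ (ball (0 : V m) 1) h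
  swap
  · refine ⟨fun _ => 1, fun _ _ => 0, differentiableOn_const _, fun _ => differentiableOn_const _,
      continuousOn_const, fun _ => continuousOn_const, fun z _ => by simp, fun i z _ => by simp, fun z _ => ?_, fun h hh => absurd ⟨h, hh⟩ hex⟩
    have h1 : min (1 / 2) (δ / 8) ≤ 1 / 2 := min_le_left _ _
    simp only [norm_one, norm_zero, Finset.sum_const_zero]
    linarith
  obtain ⟨hh, hhD, hhc, hhb, hhs⟩ := hsepc m N δ hex
  obtain ⟨K, hKc, hKH, hKe⟩ := exists_exh hA.exh.oH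
  obtain ⟨x₀, hx₀⟩ := hA.nH
  -- the points
  have hev0 : ∀ᶠ n in atTop, ‖P (ψ n x₀)‖ < 1 := by
    filter_upwards [hA.exh.exh {x₀} (singleton_subset_iff.2 hx₀) isCompact_singleton] with n hn
    exact hA.mP _ (hA.mψ n (hn (mem_singleton x₀)))
  let μ : ℕ → ℂ := fun n => if ‖P (ψ n x₀)‖ < 1 then P (ψ n x₀) else 0
  have hμ1 : ∀ n, ‖μ n‖ < 1 := by
    intro n
    simp only [μ]
    split_ifs with h
    · exact h
    · simp
  have hμ2 : Tendsto μ atTop (𝓝 1) := by
    apply (hA.limP x₀ hx₀).congr'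
    filter_upwards [hev0] with n hn
    simp only [μ, if_pos hn]
  -- the radii
  have hρ : ∀ k : ℕ, ∃ ρ : ℝ, 0 < ρ ∧ ρ < 1 ∧
      ∀ᶠ n in atTop, ∀ x ∈ K k, ph (P (ψ n x₀)) (P (ψ n x)) ≤ ρ := fun k =>
    hsp (V m) (V m) D (ball (0 : V m) 1) U ψ G P hA x₀ hx₀ (K k) (hKH k) (hKc k)
  choose ρ hρ0 hρ1 hρ2 using hρ
  -- the indices
  have hL : ∀ k : ℕ, ∃ L : ℕ, ∀ n, L ≤ n → ‖P (ψ n x₀)‖ < 1 ∧ K k ⊆ U n ∧
      (∀ x ∈ K k, ph (P (ψ n x₀)) (P (ψ n x)) ≤ ρ k) ∧
      ∀ i, ∀ x ∈ K k, ‖hh k i (G n (ψ n x)) - hh k i x‖ ≤ 1 / ((k : ℝ) + 1) := by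
    intro k
    have h1 : ∀ᶠ n in atTop, ∀ i, ∀ x ∈ K k,
        ‖hh k i (G n (ψ n x)) - hh k i x‖ ≤ 1 / ((k : ℝ) + 1) := by
      rw [Filter.eventually_all]
      intro i
      exact unif_comp hA.exh.oH (hKc k) (hKH k) ((hhD k).hol i).continuousOn
        (hA.lim (K k) (hKH k) (hKc k)) (by positivity)
    have h2 := hev0.and ((hA.exh.exh (K k) (hKH k) (hKc k)).and ((hρ2 k).and h1))
    exact eventually_atTop.1 h2
  choose L hL using hL
  have hκ : 0 < δ / (4 * ((N : ℝ) + 1)) := by positivity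
  obtain ⟨n, b, p, W, hn, hLn, hbd, hb1, hpd, hps, hp4, hpu, hW1, hW2, hW3⟩ :=
    hdisc μ hμ1 hμ2 ρ hρ0 hρ1 L (δ / (4 * ((N : ℝ) + 1))) hκ
  have hPb : ∀ z ∈ D, P z ∈ ball (0 : ℂ) 1 := fun z hz => mem_ball_zero_iff.2 (hA.mP z hz)
  have hS := fun i : Fin N => hsum (V m) D P p W (δ / (4 * ((N : ℝ) + 1)))
    (fun k z => hh k i (G (n k) z)) hA.oD hA.dP hA.mP hpd hps hp4 hpu hW3
    (fun k => ((hhD k).hol i).comp (hA.dG (n k)) (hA.mG (n k)))
    (fun k z hz => (hhD k).bd i _ (hA.mG (n k) hz))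
  refine ⟨fun z => b (P z), fun i z => (1 / 4) * ∑' k, p k (P z) * hh k i (G (n k) z),
    hbd.comp hA.dP hPb, fun i => (hS i).1.const_mul _, ?_, ?_, fun z hz => hb1 _ (hPb z hz), ?_, ?_,
    ?_⟩
  · exact hbd.continuousOn.comp (hB.cP.mono sdiff_subset)
      (fun z hz => mem_ball_zero_iff.2 (hB.mP z hz.1 (fun h => hz.2 (mem_singleton_iff.2 h))))
  · intro i
    have h1 := hsumc (V m) (closure D \ {pt}) P p (fun k z => hh k i (G (n k) z))
      (hB.cP.mono sdiff_subset)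
      (fun z hz => hB.mP z hz.1 (fun h => hz.2 (mem_singleton_iff.2 h))) hpd hpu
      (fun k => (hhc k i).comp ((hB.cG (n k)).mono sdiff_subset)
        (fun z hz => hB.mG (n k) hz.1))
      (fun k z hz => hhb k i _ (hB.mG (n k) hz.1))
    exact continuousOn_const.mul h1
  · intro i z hz
    have h1 := (hS i).2.1 z hz
    rw [norm_mul]
    have h2 : ‖(1 / 4 : ℂ)‖ = 1 / 4 := by norm_num
    rw [h2]
    linarith
  · intro z hz
    by_cases hW : ∀ k, P z ∉ W k
    · have h1 := hW2 _ (hPb z hz) hW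
      have h2 : 0 ≤ ∑ i : Fin N, ‖(1 / 4 : ℂ) * ∑' k, p k (P z) * hh k i (G (n k) z)‖ :=
        Finset.sum_nonneg fun i _ => norm_nonneg _
      have h3 : min (1 / 2) (δ / 8) ≤ 1 / 2 := min_le_left _ _
      linarith
    · push Not at hW
      obtain ⟨k, hk⟩ := hW
      have h1 : ∀ i : Fin N, (1 / 4) * (‖hh k i (G (n k) z)‖ - 2 * (δ / (4 * ((N : ℝ) + 1)))) ≤
          ‖(1 / 4 : ℂ) * ∑' k, p k (P z) * hh k i (G (n k) z)‖ := by
        intro i
        have h2 := (hS i).2.2 k z hz hk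
        have h3 : 2 * (δ / (4 * ((N : ℝ) + 1))) / ((k : ℝ) + 1) ≤
            2 * (δ / (4 * ((N : ℝ) + 1))) := by
          apply div_le_self (by positivity)
          have : (0 : ℝ) ≤ k := Nat.cast_nonneg k
          linarith
        have h4 : ‖hh k i (G (n k) z)‖ ≤ ‖∑' l, p l (P z) * hh l i (G (n l) z)‖ +
            ‖∑' l, p l (P z) * hh l i (G (n l) z) - hh k i (G (n k) z)‖ := by
          have := norm_sub_le (∑' l, p l (P z) * hh l i (G (n l) z))
            (∑' l, p l (P z) * hh l i (G (n l) z) - hh k i (G (n k) z))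
          rwa [sub_sub_cancel] at this
        rw [norm_mul]
        have h5 : ‖(1 / 4 : ℂ)‖ = 1 / 4 := by norm_num
        rw [h5]
        linarith
      have h2 : δ ≤ ∑ i, ‖hh k i (G (n k) z)‖ := (hhD k).low _ (hA.mG (n k) hz)
      have h3 : δ / 8 ≤ ∑ i : Fin N, ‖(1 / 4 : ℂ) * ∑' k, p k (P z) * hh k i (G (n k) z)‖ := by
        calc δ / 8 ≤ (1 / 4) * (δ - N * (2 * (δ / (4 * ((N : ℝ) + 1))))) := by
              have h6 : (N : ℝ) * (2 * (δ / (4 * ((N : ℝ) + 1)))) ≤ δ / 2 := by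
                have h7 : (N : ℝ) * (2 * (δ / (4 * ((N : ℝ) + 1)))) =
                    δ / 2 * ((N : ℝ) / ((N : ℝ) + 1)) := by
                  field_simp
                  ring
                rw [h7]
                have h8 : (N : ℝ) / ((N : ℝ) + 1) ≤ 1 := by
                  rw [div_le_one (by positivity)]
                  linarith
                nlinarith
              linarith
          _ ≤ (1 / 4) * (∑ i, ‖hh k i (G (n k) z)‖ - N * (2 * (δ / (4 * ((N : ℝ) + 1))))) := by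
              linarith
          _ = ∑ i : Fin N, (1 / 4) * (‖hh k i (G (n k) z)‖ - 2 * (δ / (4 * ((N : ℝ) + 1)))) := by
              rw [← Finset.mul_sum, Finset.sum_sub_distrib, Finset.sum_const, Finset.card_univ,
                Fintype.card_fin, nsmul_eq_mul]
          _ ≤ _ := Finset.sum_le_sum fun i _ => h1 i
      have h4 : min (1 / 2) (δ / 8) ≤ δ / 8 := min_le_right _ _
      have h5 := norm_nonneg (b (P z))
      linarith
  · intro h hhd
    obtain ⟨s, hs, hsu⟩ := hhs h hhd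
    refine ⟨fun j => n (s j), hn.comp hs, ?_, ?_⟩
    · intro Q hQ hQc
      obtain ⟨k₀, hk₀⟩ := hKe Q hQ hQc
      rw [Metric.tendstoUniformlyOn_iff]
      intro ε hε
      have h1 : ∀ᶠ j : ℕ in atTop, 1 / ((j : ℝ) + 1) < ε :=
        (tendsto_order.1 tendsto_one_div_add_atTop_nhds_zero_nat).2 ε hε
      filter_upwards [h1, eventually_ge_atTop k₀] with j hj1 hj2 x hx
      have hsj : j ≤ s j := hs.id_le j
      have hxK : x ∈ K (s j) := hk₀ (s j) (hj2.trans hsj) hx
      obtain ⟨a1, a2, a3, -⟩ := hL (s j) (n (s j)) (hLn (s j))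
      have hz : ψ (n (s j)) x ∈ D := hA.mψ _ (a2 hxK)
      have hμe : μ (n (s j)) = P (ψ (n (s j)) x₀) := by simp only [μ, if_pos a1]
      have h2 := (hW1 (s j) _ (hPb _ hz) (by rw [hμe]; exact a3 x hxK)).2
      rw [Pi.zero_apply, dist_zero_left]
      have h3 : 1 / (((s j : ℕ) : ℝ) + 1) ≤ 1 / ((j : ℝ) + 1) := by
        apply one_div_le_one_div_of_le (by positivity)
        have : (j : ℝ) ≤ (s j : ℕ) := by exact_mod_cast hsj
        linarith
      exact (h2.trans h3).trans_lt hj1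
    · intro i Q hQ hQc
      obtain ⟨k₀, hk₀⟩ := hKe Q hQ hQc
      rw [Metric.tendstoUniformlyOn_iff]
      intro ε hε
      have h1 : ∀ᶠ j : ℕ in atTop, (2 * (δ / (4 * ((N : ℝ) + 1))) + 1) * (1 / ((j : ℝ) + 1)) <
          ε / 2 := by
        have h2 : Tendsto (fun j : ℕ => (2 * (δ / (4 * ((N : ℝ) + 1))) + 1) * (1 / ((j : ℝ) + 1)))
            atTop (𝓝 ((2 * (δ / (4 * ((N : ℝ) + 1))) + 1) * 0)) :=
          tendsto_one_div_add_atTop_nhds_zero_nat.const_mul _
        rw [mul_zero] at h2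
        exact (tendsto_order.1 h2).2 _ (by positivity)
      have h3 := Metric.tendstoUniformlyOn_iff.1 (hsu i Q hQ hQc) (ε / 2) (by positivity)
      filter_upwards [h1, h3, eventually_ge_atTop k₀] with j hj1 hj3 hj2 x hx
      have hsj : j ≤ s j := hs.id_le j
      have hxK : x ∈ K (s j) := hk₀ (s j) (hj2.trans hsj) hx
      obtain ⟨a1, a2, a3, a4⟩ := hL (s j) (n (s j)) (hLn (s j))
      have hz : ψ (n (s j)) x ∈ D := hA.mψ _ (a2 hxK)
      have hμe : μ (n (s j)) = P (ψ (n (s j)) x₀) := by simp only [μ, if_pos a1]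
      have h2 := (hW1 (s j) _ (hPb _ hz) (by rw [hμe]; exact a3 x hxK)).1
      have h4 := (hS i).2.2 (s j) _ hz h2
      have h5 := a4 i x hxK
      have h6 := hj3 x hx
      rw [dist_comm, dist_eq_norm] at h6
      rw [dist_comm, dist_eq_norm]
      have h7 : (4 : ℂ) * (1 / 4 * ∑' k, p k (P (ψ (n (s j)) x)) *
          hh k i (G (n k) (ψ (n (s j)) x))) - h i x =
          (∑' k, p k (P (ψ (n (s j)) x)) * hh k i (G (n k) (ψ (n (s j)) x)) -
            hh (s j) i (G (n (s j)) (ψ (n (s j)) x))) +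
          (hh (s j) i (G (n (s j)) (ψ (n (s j)) x)) - hh (s j) i x) +
          (hh (s j) i x - h i x) := by ring
      rw [h7]
      have h8 : 1 / (((s j : ℕ) : ℝ) + 1) ≤ 1 / ((j : ℝ) + 1) := by
        apply one_div_le_one_div_of_le (by positivity)
        have : (j : ℝ) ≤ (s j : ℕ) := by exact_mod_cast hsj
        linarith
      have h9 : 2 * (δ / (4 * ((N : ℝ) + 1))) / (((s j : ℕ) : ℝ) + 1) ≤
          2 * (δ / (4 * ((N : ℝ) + 1))) * (1 / ((j : ℝ) + 1)) := by
        rw [div_eq_mul_one_div]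
        exact mul_le_mul_of_nonneg_left h8 (by positivity)
      calc _ ≤ _ := norm_add₃_le
        _ < ε := by linarith

end Pool.Agent.W12.Ud.Udc
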